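import Pool.Agent.MTD.Fin
import Pool.Agent.MTX.D.Fin

/-! # MTXR : finite generation with invariance at the regular points only

The theorems of `MTX/D` for functions on `G^b × S` that are invariant under the centralisers of the REGULAR
points of the slice. -/

namespace Pool.Agent.MTXR

open Pool.Agent.MTD hiding Ax GAx FF Fw gC
open Pool.Agent.MTXD

open Matrix Filter Topology
open Pool.Agent.MP_c45d35_ag (chi UpUni LowUni chi_add chi_mul chi_zero chi_one chi_inv chi_map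
  chi_neg chi_pow fg_of_integral isIntegral_of_valuations reg_lemma)
open Pool.Agent.MP_c45d35_ag.BlockL (adjoin_sep hom_aeval aeval_eval aeval_mem UpUni_reflect
  UpUni_map)

section
variable {n N : ℕ} {ι : Type} [Fintype ι] {D : Dat n N ι} {b : ℕ}

/-- invariance under the tori in the centralisers of the regular points of the slice -/
def InvR (D : Dat n N ι) (b : ℕ) (P : MvPolynomial (Idx N b) ℂ) : Prop :=
  ∀ (g : Fin b → Matrix (Fin N) (Fin N) ℂ), (∀ a, D.IsG (g a)) → ∀ (x : D.RegX)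
    (t t' : Fin b → Fin n → ℂˣ), ∏ a, t a = ∏ a, t' a →
    MvPolynomial.eval (co (fun a => g a * D.Tt (t a) * (D.qC x.1)⁻¹) (D.sC x.1)) P =
      MvPolynomial.eval (co (fun a => g a * D.Tt (t' a) * (D.qC x.1)⁻¹) (D.sC x.1)) P

/-- The functions on `G^b × S`, given by polynomials, invariant at the regular points. -/
def MTR2 (D : Dat n N ι) (b : ℕ) : Subalgebra ℂ (Pt D.Gs D.S b → ℂ) where
  carrier := {F | ∃ P : MvPolynomial (Idx N b) ℂ, Rep D P F ∧ InvR D b P}
  mul_mem' := by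
    rintro F F' ⟨P, hP, h1⟩ ⟨P', hP', h1'⟩
    refine ⟨P * P', fun y => by rw [Pi.mul_apply, hP y, hP' y, map_mul], ?_⟩
    intro g hg x t t' ht
    rw [map_mul, map_mul, h1 g hg x t t' ht, h1' g hg x t t' ht]
  add_mem' := by
    rintro F F' ⟨P, hP, h1⟩ ⟨P', hP', h1'⟩
    refine ⟨P + P', fun y => by rw [Pi.add_apply, hP y, hP' y, map_add], ?_⟩
    intro g hg x t t' ht
    rw [map_add, map_add, h1 g hg x t t' ht, h1' g hg x t t' ht]
  algebraMap_mem' := by
    intro r
    exact ⟨MvPolynomial.C r, fun y => by simp [Pi.algebraMap_apply], fun g hg x t t' ht => by simp⟩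

/-- The conditions on the generators. -/
structure GAxR {κ : Type} [Fintype κ] (D : Dat n N ι) (G : Gens N κ) : Prop where
  J_inj : ∀ k, Function.Injective (G.J k)
  minor : ∀ (k : κ) {K : Type} [Field K] [Algebra ℂ K] (g b : Matrix (Fin N) (Fin N) K), D.IsG b →
    (∀ i j, j < i → b i j = 0) → ∀ I : Fin (G.m k) → Fin N,
    ((g * b).submatrix I (G.J k)).det =
      (g.submatrix I (G.J k)).det * ∏ j, b (G.J k j) (G.J k j)
  dom : ∀ k, D.Dom (G.lam D k)
  lpos : ∀ k, 0 ≤ toLex (G.lam D k)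
  cone : ∃ M : ℕ, 0 < M ∧ ∀ μ, D.Dom μ → ∃ c : κ → ℕ, M • μ = ∑ k, c k • G.lam D k

/-- the algebra `𝓐` contains the entries of the moment map -/
def MomIn {b : ℕ} (𝓐 : Subalgebra ℂ (Pt D.Gs D.S (b + 1) → ℂ)) : Prop :=
  ∀ (a : Fin (b + 1)) (i j : Fin N),
    (fun y : Pt D.Gs D.S (b + 1) => MvPolynomial.eval (co (fun a => (y.1 a).1) y.2.1) (momP a i j)) ∈ 𝓐

/-- the algebra `𝓐` contains elements with the prescribed leading terms -/
def TopIn {κ : Type} [Fintype κ] {b : ℕ} (𝓐 : Subalgebra ℂ (Pt D.Gs D.S (b + 1) → ℂ)) (G : Gens N κ) : Prop :=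
  ∀ (k : κ) (I : Fin (b + 1) → Fin (G.m k) → Fin N),
    ∃ P : MvPolynomial (Idx N (b + 1)) ℂ,
      (fun y : Pt D.Gs D.S (b + 1) => MvPolynomial.eval (co (fun a => (y.1 a).1) y.2.1) P) ∈ 𝓐 ∧
      IsLead D P (G.lam D k) ∧
      ∀ y : XX D (b + 1), Eu D (G.lam D k) y.2.1 * cf D P (G.lam D k) y =
        ∏ a, ((y.1 a).1.submatrix (I a) (G.J k)).det

/-- `Phi` at a point translated by torus elements -/
theorem Phi_torus (A : Ax D) {P : MvPolynomial (Idx N (b + 1)) ℂ} (hP : InvR D (b + 1) P)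
    (g g' : Fin (b + 1) → D.Gs) (x : D.RegX) (t : Fin (b + 1) → Fin n → ℂˣ)
    (hg : ∀ a, (g' a).1 = (g a).1 * D.Tt (t a)) (t' : Fin n → ℂˣ) :
    Phi D P (g', x) t' = Phi D P (g, x) (t' * ∏ a, t a) := by
  unfold Phi
  have e1 : (fun a => (g' a).1 * (if a = 0 then (D.Tt t' : Matrix (Fin N) (Fin N) ℂ) else 1) *
      (D.qC x.1)⁻¹) =
      fun a => (g a).1 * D.Tt (t a * (if a = 0 then t' else 1)) * (D.qC x.1)⁻¹ := by
    funext a
    rw [hg a, D.Tt_mul]
    by_cases ha : a = 0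
    · simp only [ha, if_true, Matrix.mul_assoc]
    · simp only [ha, if_false, D.Tt_one, Matrix.mul_one]
  have e2 : (fun a => (g a).1 *
      (if a = 0 then (D.Tt (t' * ∏ a, t a) : Matrix (Fin N) (Fin N) ℂ) else 1) * (D.qC x.1)⁻¹) =
      fun a => (g a).1 * D.Tt (if a = 0 then (t' * ∏ a, t a) else 1) * (D.qC x.1)⁻¹ := by
    funext a
    by_cases ha : a = 0
    · simp only [ha, if_true]
    · simp only [ha, if_false, D.Tt_one]
  simp only [e1, e2]
  refine hP _ (fun a => (g a).2) x _ _ ?_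
  rw [Finset.prod_mul_distrib, Finset.prod_ite_eq' Finset.univ (0 : Fin (b + 1)) (fun _ => t'),
    Finset.prod_ite_eq' Finset.univ (0 : Fin (b + 1)) (fun _ => t' * ∏ a, t a)]
  simp [mul_comm]

/-- semi-invariance of the coefficient functions -/
theorem cf_torus (A : Ax D) {P : MvPolynomial (Idx N (b + 1)) ℂ} (hP : InvR D (b + 1) P)
    (μ : Fin n → ℤ) (g g' : Fin (b + 1) → D.Gs) (x : D.RegX)
    (t : Fin (b + 1) → Fin n → ℂˣ) (hg : ∀ a, (g' a).1 = (g a).1 * D.Tt (t a)) :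
    cf D P μ (g', x) = ((∏ a, chi μ (t a) : ℂˣ) : ℂ) * cf D P μ (g, x) := by
  by_cases hμ : μ ∈ supp D P
  · refine cf_unique (subset_refl _) (g', x)
      (fun μ => ((∏ a, chi μ (t a) : ℂˣ) : ℂ) * cf D P μ (g, x)) (fun t' => ?_) μ hμ
    rw [Phi_torus A hP g g' x t hg, Phi_eq_sum (subset_refl _)]
    refine Finset.sum_congr rfl fun μ _ => ?_
    rw [chi_mul]
    have : chi μ (∏ a, t a) = ∏ a, chi μ (t a) := by
      classical
      induction (Finset.univ : Finset (Fin (b + 1))) using Finset.induction_on with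
      | empty => simp [chi_one]
      | insert a s ha ih => rw [Finset.prod_insert ha, Finset.prod_insert ha, chi_mul, ih]
    rw [this]
    push_cast
    ring
  · rw [cf_eq_zero hμ]
    simp

end

end Pool.Agent.MTXR
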