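import Pool.Agent.MTXR.C
import Pool.Agent.MTXR.D

/-! # MTXR : finite generation -/

namespace Pool.Agent.MTXR

open Pool.Agent.MTD hiding Ax GAx FF Fw gC
open Pool.Agent.MTXD

open Matrix Filter Topology
open Pool.Agent.MP_c45d35_ag (chi UpUni LowUni chi_add chi_mul chi_zero chi_one chi_inv chi_map
  chi_neg chi_pow fg_of_integral isIntegral_of_valuations reg_lemma)
open Pool.Agent.MP_c45d35_ag.BlockL (adjoin_sep hom_aeval aeval_eval aeval_mem UpUni_reflect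
  UpUni_map)

section
variable {n N : ℕ} {ι : Type} [Fintype ι] {D : Dat n N ι} {b : ℕ}

theorem invR_of_invP (A : Ax D) {P : MvPolynomial (Idx N b) ℂ} (h : MTD.InvP D b P) : InvR D b P :=
  fun g hg x t t' ht => MTXD.eval_torus A h g hg x t t' ht

theorem invR_of_rep (A : Ax D) {P : MvPolynomial (Idx N b) ℂ} {F : Pt D.Gs D.S b → ℂ}
    (hF : F ∈ MTR2 D b) (h : Rep D P F) : InvR D b P := by
  obtain ⟨P0, h0, h1⟩ := hF
  intro g hg x t t' ht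
  have key : ∀ t : Fin b → Fin n → ℂˣ,
      MvPolynomial.eval (co (fun a => g a * D.Tt (t a) * (D.qC x.1)⁻¹) (D.sC x.1)) P =
      MvPolynomial.eval (co (fun a => g a * D.Tt (t a) * (D.qC x.1)⁻¹) (D.sC x.1)) P0 := by
    intro t
    have hg' : ∀ a, D.IsG (g a * D.Tt (t a) * (D.qC x.1)⁻¹) := fun a =>
      A.mul _ _ (A.mul _ _ (hg a) (A.torus _)) (A.inv _ (A.qC_isG x.1))
    have e1 := h (fun a => ⟨g a * D.Tt (t a) * (D.qC x.1)⁻¹, hg' a⟩, ⟨D.sC x.1, A.sC_mem x.1⟩)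
    have e2 := h0 (fun a => ⟨g a * D.Tt (t a) * (D.qC x.1)⁻¹, hg' a⟩, ⟨D.sC x.1, A.sC_mem x.1⟩)
    exact e1.symm.trans e2
  rw [key, key, h1 g hg x t t' ht]

theorem rep_of_invR {P : MvPolynomial (Idx N b) ℂ} (h : InvR D b P) :
    ∃ F : ↥(MTR2 D b), Rep D P F.1 :=
  ⟨⟨fun y => MvPolynomial.eval (co (fun a => (y.1 a).1) y.2.1) P, ⟨P, fun y => rfl, h⟩⟩,
    fun y => rfl⟩

variable {𝓐 : Subalgebra ℂ (Pt D.Gs D.S (b + 1) → ℂ)}

/-- `f` has a representative with leading weight at most `λ` and normalised leading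
coefficient `c` -/
def Good0 (𝓐 : Subalgebra ℂ (Pt D.Gs D.S (b + 1) → ℂ)) (lam : Fin n → ℤ) (f : ↥𝓐)
    (c : GamT D (b + 1)) : Prop :=
  ∃ P : MvPolynomial (Idx N (b + 1)) ℂ, Rep D P f.1 ∧ IsLead D P lam ∧
    ∀ y, GamT.fn c y = Eu D lam y.2.1 * cf D P lam y

theorem good0_one : Good0 𝓐 0 1 1 := by
  refine ⟨1, fun y => by simp, ?_, fun y => ?_⟩
  · intro κ hκ
    obtain ⟨y, hy⟩ := mem_supp.1 hκ
    rw [cf_one] at hy
    by_cases h : κ = 0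
    · rw [h]
    · rw [if_neg h] at hy
      exact absurd rfl hy
  · rw [Eu_zero, cf_one, if_pos rfl, map_one]
    simp

theorem good0_zero (lam : Fin n → ℤ) : Good0 𝓐 lam 0 0 := by
  refine ⟨0, fun y => by simp, ?_, fun y => ?_⟩
  · intro κ hκ
    rw [supp_zero] at hκ
    exact absurd hκ (Finset.notMem_empty κ)
  · rw [cf_zero, map_zero]
    simp

theorem good0_add (lam : Fin n → ℤ) (f : ↥𝓐) (c : GamT D (b + 1))
    (f' : ↥𝓐) (c' : GamT D (b + 1)) (h : Good0 𝓐 lam f c)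
    (h' : Good0 𝓐 lam f' c') : Good0 𝓐 lam (f + f') (c + c') := by
  obtain ⟨P, h1, h2, h3⟩ := h
  obtain ⟨P', h1', h2', h3'⟩ := h'
  refine ⟨P + P', fun y => ?_, ?_, fun y => ?_⟩
  · rw [map_add, ← h1 y, ← h1' y]
    rfl
  · intro κ hκ
    obtain ⟨y, hy⟩ := mem_supp.1 hκ
    rw [cf_add, Pi.add_apply] at hy
    by_cases h4 : κ ∈ supp D P
    · exact h2 κ h4
    · by_cases h5 : κ ∈ supp D P'
      · exact h2' κ h5
      · rw [cf_eq_zero h4, cf_eq_zero h5] at hy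
        simp at hy
  · rw [map_add, cf_add, Pi.add_apply, Pi.add_apply, mul_add, h3, h3']

theorem good0_smul (lam : Fin n → ℤ) (f : ↥𝓐) (c : GamT D (b + 1)) (z : ℂ)
    (h : Good0 𝓐 lam f c) : Good0 𝓐 lam (z • f) (z • c) := by
  obtain ⟨P, h1, h2, h3⟩ := h
  refine ⟨z • P, fun y => ?_, ?_, fun y => ?_⟩
  · rw [MvPolynomial.smul_eval, ← h1 y]
    rfl
  · intro κ hκ
    obtain ⟨y, hy⟩ := mem_supp.1 hκ
    rw [cf_smul, Pi.smul_apply] at hy
    by_cases h4 : κ ∈ supp D P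
    · exact h2 κ h4
    · rw [cf_eq_zero h4] at hy
      simp at hy
  · rw [map_smul, cf_smul, Pi.smul_apply, Pi.smul_apply, h3]
    simp only [smul_eq_mul]
    ring

theorem good0_mul (lam lam' : Fin n → ℤ) (hl : D.Dom lam) (hl' : D.Dom lam')
    (f : ↥𝓐) (c : GamT D (b + 1))
    (f' : ↥𝓐) (c' : GamT D (b + 1)) (h : Good0 𝓐 lam f c)
    (h' : Good0 𝓐 lam' f' c') : Good0 𝓐 (lam + lam') (f * f') (c * c') := by
  obtain ⟨P, h1, h2, h3⟩ := h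
  obtain ⟨P', h1', h2', h3'⟩ := h'
  obtain ⟨h4, h5⟩ := cf_mul_lead P P' lam lam' h2 h2'
  refine ⟨P * P', fun y => ?_, ?_, fun y => ?_⟩
  · rw [map_mul, ← h1 y, ← h1' y]
    rfl
  · exact h5
  · rw [map_mul, h4, Pi.mul_apply, Pi.mul_apply, h3, h3', Eu_add hl hl']
    ring

theorem exists_coef (A : Ax D) (h𝓐 : 𝓐 ≤ MTR2 D (b + 1)) {f : ↥𝓐}
    {P : MvPolynomial (Idx N (b + 1)) ℂ}
    (hP : Rep D P f.1) (lam : Fin n → ℤ) (hlead : IsLead D P lam) :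
    ∃ c : GamT D (b + 1), Good0 𝓐 lam f c := by
  obtain ⟨c, hc⟩ := exists_gam_of_PB A lam _ (pole_bound A (invR_of_rep A (h𝓐 f.2) hP) lam hlead)
  exact ⟨c, P, hP, hlead, fun y => by rw [hc]⟩

theorem eq_zero_of_supp (A : Ax D) {f : ↥𝓐}
    {P : MvPolynomial (Idx N (b + 1)) ℂ}
    (hP : Rep D P f.1) (h : supp D P = ∅) : f = 0 := by
  refine Subtype.ext ?_
  funext y
  obtain ⟨x, hx⟩ := A.exists_sC y.2.2
  rw [hP y, hx]
  exact eval_eq_zero_of_supp A h y.1 x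

theorem good0_desc (A : Ax D) (h𝓐 : 𝓐 ≤ MTR2 D (b + 1)) (lam : Fin n → ℤ) (f : ↥𝓐)
    (h : Good0 𝓐 lam f 0) :
    f = 0 ∨ ∃ μ c', D.Dom μ ∧ toLex μ < toLex lam ∧ Good0 𝓐 μ f c' := by
  obtain ⟨P, h1, h2, h3⟩ := h
  by_cases hs : supp D P = ∅
  · exact Or.inl (eq_zero_of_supp A h1 hs)
  · right
    obtain ⟨μ, hdom, hμ, hlead⟩ := exists_lead A hs
    obtain ⟨c', hc'⟩ := exists_coef A h𝓐 h1 μ hlead
    refine ⟨μ, c', hdom, ?_, hc'⟩
    refine lt_of_le_of_ne (h2 _ hμ) fun heq => ?_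
    have h4 : μ = lam := toLex_inj.1 heq
    rw [h4] at hμ
    obtain ⟨y, hy⟩ := mem_supp.1 hμ
    have h5 := h3 y
    rw [map_zero] at h5
    exact hy ((mul_eq_zero.1 h5.symm).resolve_left (Eu_ne_zero lam y.2.2))

theorem good0_ex (A : Ax D) (h𝓐 : 𝓐 ≤ MTR2 D (b + 1)) (f : ↥𝓐) :
    ∃ μ c, D.Dom μ ∧ Good0 𝓐 μ f c := by
  obtain ⟨P, hP, -⟩ := h𝓐 f.2
  by_cases hs : supp D P = ∅
  · have : f = 0 := eq_zero_of_supp A hP hs
    rw [this]
    exact ⟨0, 0, dom_zero, good0_zero 0⟩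
  · obtain ⟨μ, hdom, _, hlead⟩ := exists_lead A hs
    obtain ⟨c', hc'⟩ := exists_coef A h𝓐 (f := f) hP μ hlead
    exact ⟨μ, c', hdom, hc'⟩

/-- `Good0` indexed by exponents -/
def Good (𝓐 : Subalgebra ℂ (Pt D.Gs D.S (b + 1) → ℂ)) (m : ι →₀ ℕ) (f : ↥𝓐)
    (c : GamT D (b + 1)) : Prop :=
  (∃ μ, D.Dom μ ∧ ex D μ = m ∧ Good0 𝓐 μ f c) ∨ (f = 0 ∧ c = 0)

theorem ltL_wf (A : Ax D) {κ : Type} [Fintype κ] {G : Gens N κ} (B : GAxR D G) :
    WellFounded (ltL D) := by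
  classical
  obtain ⟨M, hM, hcone⟩ := B.cone
  rw [wellFounded_iff_isEmpty_descending_chain]
  refine ⟨fun ⟨f, hf⟩ => ?_⟩
  choose μ' μ hμ' hμ he' he hlt using hf
  -- `μ k` is the weight of `f k`, and `μ' k` that of `f (k + 1)`
  have hnext : ∀ k, μ' k = μ (k + 1) := fun k =>
    ex_inj A (hμ' k) (hμ (k + 1)) (by rw [he', he])
  have hanti : ∀ k, toLex (μ (k + 1)) < toLex (μ k) := fun k => by
    rw [← hnext]; exact hlt k
  have hanti' : StrictAnti fun k => toLex (μ k) := strictAnti_nat_of_succ_lt hanti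
  choose c hc using fun k => hcone (μ k) (hμ k)
  obtain ⟨i, j, hij, hle⟩ := wellQuasiOrdered_le (α := κ → ℕ) c
  have h1 : M • μ j = M • μ i + ∑ k, (c j k - c i k) • G.lam D k := by
    rw [hc, hc, ← Finset.sum_add_distrib]
    refine Finset.sum_congr rfl fun k _ => ?_
    rw [← add_smul, Nat.add_sub_cancel' (hle k)]
  have h2 : 0 ≤ toLex (∑ k, (c j k - c i k) • G.lam D k) := by
    have h3 : ∀ s : Finset κ, 0 ≤ toLex (∑ k ∈ s, (c j k - c i k) • G.lam D k) := by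
      intro s
      induction s using Finset.induction_on with
      | empty => exact le_of_eq (by rw [Finset.sum_empty]; rfl)
      | insert a s ha ih =>
        rw [Finset.sum_insert ha, toLex_add]
        refine add_nonneg ?_ ih
        have : toLex ((c j a - c i a) • G.lam D a) = (c j a - c i a) • toLex (G.lam D a) := rfl
        rw [this]
        exact nsmul_nonneg (B.lpos a) _
    exact h3 Finset.univ
  have h4 : toLex (M • μ i) ≤ toLex (M • μ j) := by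
    rw [h1, toLex_add]
    exact le_add_of_nonneg_right h2
  have h5 : toLex (M • μ j) < toLex (M • μ i) := by
    have h6 := hanti' hij
    have h7 : ∀ ν : Fin n → ℤ, toLex (M • ν) = M • toLex ν := fun _ => rfl
    rw [h7, h7]
    exact nsmul_lt_nsmul_right hM.ne' h6
  exact absurd h4 (not_le.2 h5)

theorem good_zero (m : ι →₀ ℕ) : Good 𝓐 m 0 0 := Or.inr ⟨rfl, rfl⟩

theorem good_one : Good 𝓐 0 1 1 := Or.inl ⟨0, dom_zero, ex_zero, good0_one⟩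

theorem good_smul (m : ι →₀ ℕ) (f : ↥𝓐) (c : GamT D (b + 1)) (z : ℂ)
    (h : Good 𝓐 m f c) : Good 𝓐 m (z • f) (z • c) := by
  rcases h with ⟨μ, h1, h2, h3⟩ | ⟨rfl, rfl⟩
  · exact Or.inl ⟨μ, h1, h2, good0_smul _ _ _ _ h3⟩
  · rw [smul_zero, smul_zero]
    exact Or.inr ⟨rfl, rfl⟩

theorem good_mul (m m' : ι →₀ ℕ) (f : ↥𝓐) (c : GamT D (b + 1))
    (f' : ↥𝓐) (c' : GamT D (b + 1)) (h : Good 𝓐 m f c)
    (h' : Good 𝓐 m' f' c') : Good 𝓐 (m + m') (f * f') (c * c') := by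
  rcases h with ⟨μ, h1, h2, h3⟩ | ⟨rfl, rfl⟩
  · rcases h' with ⟨μ', h1', h2', h3'⟩ | ⟨rfl, rfl⟩
    · exact Or.inl ⟨μ + μ', dom_add h1 h1', by rw [ex_add h1 h1', h2, h2'],
        good0_mul _ _ h1 h1' _ _ _ _ h3 h3'⟩
    · rw [mul_zero, mul_zero]
      exact Or.inr ⟨rfl, rfl⟩
  · rw [zero_mul, zero_mul]
    exact Or.inr ⟨rfl, rfl⟩

theorem good_add (A : Ax D) (m : ι →₀ ℕ) (f : ↥𝓐) (c : GamT D (b + 1))
    (f' : ↥𝓐) (c' : GamT D (b + 1)) (h : Good 𝓐 m f c)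
    (h' : Good 𝓐 m f' c') : Good 𝓐 m (f + f') (c + c') := by
  rcases h with ⟨μ, h1, h2, h3⟩ | ⟨rfl, rfl⟩
  · rcases h' with ⟨μ', h1', h2', h3'⟩ | ⟨rfl, rfl⟩
    · have he : μ' = μ := ex_inj A h1' h1 (by rw [h2, h2'])
      subst he
      exact Or.inl ⟨μ', h1, h2, good0_add _ _ _ _ _ h3 h3'⟩
    · rw [add_zero, add_zero]
      exact Or.inl ⟨μ, h1, h2, h3⟩
  · rw [zero_add, zero_add]
    exact h'

theorem good_desc (A : Ax D) (h𝓐 : 𝓐 ≤ MTR2 D (b + 1)) (m : ι →₀ ℕ) (f : ↥𝓐)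
    (h : Good 𝓐 m f 0) : f = 0 ∨ ∃ m' c', ltL D m' m ∧ Good 𝓐 m' f c' := by
  rcases h with ⟨μ, h1, h2, h3⟩ | ⟨rfl, _⟩
  · rcases good0_desc A h𝓐 μ f h3 with h | ⟨μ', c', h4, h5, h6⟩
    · exact Or.inl h
    · exact Or.inr ⟨ex D μ', c', ⟨μ', μ, h4, h1, rfl, h2, h5⟩, Or.inl ⟨μ', h4, rfl, h6⟩⟩
  · exact Or.inl rfl

theorem good_ex (A : Ax D) (h𝓐 : 𝓐 ≤ MTR2 D (b + 1)) (f : ↥𝓐) : ∃ m c, Good 𝓐 m f c := by
  obtain ⟨μ, c, h1, h2⟩ := good0_ex A h𝓐 f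
  exact ⟨ex D μ, c, Or.inl ⟨μ, h1, rfl, h2⟩⟩

theorem good_sum (A : Ax D) {σ : Type*} (s : Finset σ) (m : ι →₀ ℕ)
    (c : σ → GamT D (b + 1)) (h : ∀ i ∈ s, ∃ f, Good 𝓐 m f (c i)) :
    ∃ f, Good 𝓐 m f (∑ i ∈ s, c i) := by
  classical
  induction s using Finset.induction_on with
  | empty => exact ⟨0, by simpa using good_zero m⟩
  | insert i s hi ih =>
    obtain ⟨f, hf⟩ := h i (Finset.mem_insert_self i s)
    obtain ⟨f', hf'⟩ := ih fun j hj => h j (Finset.mem_insert_of_mem hj)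
    rw [Finset.sum_insert hi]
    exact ⟨f + f', good_add A m f _ f' _ hf hf'⟩

/-- the algebra of leading coefficients -/
noncomputable def BB (A : Ax D) (𝓐 : Subalgebra ℂ (Pt D.Gs D.S (b + 1) → ℂ)) : Subalgebra ℂ (MvPolynomial ι (GamT D (b + 1))) where
  carrier := {p | ∀ m, ∃ f, Good 𝓐 m f (MvPolynomial.coeff m p)}
  mul_mem' := by
    classical
    intro p q hp hq m
    rw [MvPolynomial.coeff_mul]
    refine good_sum A _ m _ fun ij hij => ?_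
    obtain ⟨f, hf⟩ := hp ij.1
    obtain ⟨f', hf'⟩ := hq ij.2
    rw [← Finset.HasAntidiagonal.mem_antidiagonal.1 hij]
    exact ⟨f * f', good_mul _ _ f _ f' _ hf hf'⟩
  add_mem' := by
    intro p q hp hq m
    obtain ⟨f, hf⟩ := hp m
    obtain ⟨f', hf'⟩ := hq m
    exact ⟨f + f', by rw [MvPolynomial.coeff_add]; exact good_add A m f _ f' _ hf hf'⟩
  algebraMap_mem' := by
    classical
    intro r m
    rw [MvPolynomial.algebraMap_apply, MvPolynomial.coeff_C]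
    split_ifs with h
    · subst h
      refine ⟨r • 1, ?_⟩
      rw [Algebra.algebraMap_eq_smul_one]
      exact good_smul 0 1 1 r good_one
    · exact ⟨0, good_zero m⟩

/-- finite generation of the algebra of leading coefficients implies that of the ring -/
theorem finiteType_of_BB (A : Ax D) (h𝓐 : 𝓐 ≤ MTR2 D (b + 1)) {κ : Type} [Fintype κ] {G : Gens N κ} (B : GAxR D G)
    (h : (BB A 𝓐).FG) : Algebra.FiniteType ℂ ↥𝓐 :=
  sagbi (fun m f c => Good 𝓐 m f c) good_one good_zero (good_add A) good_smul good_mul (ltL D)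
    (ltL_wf A B) (good_desc A h𝓐) (good_ex A h𝓐) (BB A 𝓐) (fun _ => Iff.rfl) h

theorem good0_mom (A : Ax D) (hm : MomIn 𝓐) (a : Fin (b + 1)) (i j : Fin N) :
    ∃ f, Good0 𝓐 0 f (momG D a i j) := by
  obtain ⟨F, hF⟩ : ∃ F : ↥𝓐, Rep D (momP a i j) F.1 := ⟨⟨_, hm a i j⟩, fun y => rfl⟩
  have hexp : ∀ (y : XX D (b + 1)) (t : Fin n → ℂˣ), Phi D (momP a i j) y t =
      ∑ μ ∈ ({0} : Finset (Fin n → ℤ)),
        ((y.1 a).1 * D.Dx y.2.1 * (y.1 a).1⁻¹) i j * ((chi μ t : ℂˣ) : ℂ) := by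
    intro y t
    rw [Finset.sum_singleton, chi_zero, Units.val_one, mul_one]
    unfold Phi
    rw [eval_momP]
    set T : Matrix (Fin N) (Fin N) ℂ := if a = 0 then D.Tt t else 1 with hT
    have hTG : D.IsG T := by
      rw [hT]
      split_ifs
      · exact A.torus t
      · exact A.one
    have hTD : T * D.Dx y.2.1 = D.Dx y.2.1 * T := by
      rw [hT]
      split_ifs
      · exact D.Tt_Dx_comm t _
      · rw [Matrix.one_mul, Matrix.mul_one]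
    have hq := A.qC_isG y.2.1
    have hs : D.sC y.2.1 = D.qC y.2.1 * D.Dx y.2.1 * (D.qC y.2.1)⁻¹ := by
      rw [A.qC_conj y.2.2, Matrix.mul_assoc, A.mul_inv hq, Matrix.mul_one]
    have hG : D.IsG ((y.1 a).1 * T * (D.qC y.2.1)⁻¹) :=
      A.mul _ _ (A.mul _ _ (y.1 a).2 hTG) (A.inv _ hq)
    rw [← A.inv_eq hG, Matrix.mul_inv_rev, Matrix.mul_inv_rev, hs]
    have hqq : (D.qC y.2.1)⁻¹⁻¹ = D.qC y.2.1 := Matrix.nonsing_inv_nonsing_inv _
      (by rw [A.det _ hq]; exact isUnit_one)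
    rw [hqq]
    have h1 : (y.1 a).1 * T * (D.qC y.2.1)⁻¹ * (D.qC y.2.1 * D.Dx y.2.1 * (D.qC y.2.1)⁻¹) *
        (D.qC y.2.1 * (T⁻¹ * (y.1 a).1⁻¹)) = (y.1 a).1 * D.Dx y.2.1 * (y.1 a).1⁻¹ := by
      calc (y.1 a).1 * T * (D.qC y.2.1)⁻¹ * (D.qC y.2.1 * D.Dx y.2.1 * (D.qC y.2.1)⁻¹) *
          (D.qC y.2.1 * (T⁻¹ * (y.1 a).1⁻¹)) =
          (y.1 a).1 * T * ((D.qC y.2.1)⁻¹ * D.qC y.2.1) * D.Dx y.2.1 *
            ((D.qC y.2.1)⁻¹ * D.qC y.2.1) * (T⁻¹ * (y.1 a).1⁻¹) := by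
            simp only [Matrix.mul_assoc]
        _ = (y.1 a).1 * (T * D.Dx y.2.1) * (T⁻¹ * (y.1 a).1⁻¹) := by
            rw [A.inv_mul hq]; simp only [Matrix.mul_assoc, Matrix.one_mul]
        _ = (y.1 a).1 * D.Dx y.2.1 * (T * T⁻¹) * (y.1 a).1⁻¹ := by
            rw [hTD]; simp only [Matrix.mul_assoc]
        _ = _ := by rw [A.mul_inv hTG, Matrix.mul_one]
    rw [h1]
  obtain ⟨h1, h2⟩ := cf_of_Phi (P := momP a i j) {0}
    (fun _ y => ((y.1 a).1 * D.Dx y.2.1 * (y.1 a).1⁻¹) i j) hexp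
  refine ⟨F, momP a i j, hF, fun κ hκ => ?_, fun y => ?_⟩
  · rw [Finset.mem_singleton.1 (h2 hκ)]
  · rw [Eu_zero, one_mul, h1 0 (Finset.mem_singleton_self _), fn_momG A]

theorem C_momG_mem (A : Ax D) (hm : MomIn 𝓐) (a : Fin (b + 1)) (i j : Fin N) :
    (MvPolynomial.C (momG D a i j) : MvPolynomial ι (GamT D (b + 1))) ∈ BB A 𝓐 := by
  classical
  intro m
  rw [MvPolynomial.coeff_C]
  split_ifs with h
  · subst h
    obtain ⟨f, hf⟩ := good0_mom A hm a i j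
    exact ⟨f, Or.inl ⟨0, dom_zero, ex_zero, hf⟩⟩
  · exact ⟨0, good_zero m⟩

theorem monomial_minG_mem (A : Ax D) {κ : Type} [Fintype κ] {G : Gens N κ} (B : GAxR D G)
    (ht : TopIn 𝓐 G) (l : κ)
    (I : Fin (b + 1) → Fin (G.m l) → Fin N) :
    (MvPolynomial.monomial (ex D (G.lam D l)) (minG D G l I) :
      MvPolynomial ι (GamT D (b + 1))) ∈ BB A 𝓐 := by
  classical
  intro m
  rw [MvPolynomial.coeff_monomial]
  split_ifs with h
  · subst h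
    obtain ⟨P, h1, h2, h3⟩ := ht l I
    obtain ⟨F, hF⟩ : ∃ F : ↥𝓐, Rep D P F.1 := ⟨⟨_, h1⟩, fun y => rfl⟩
    exact ⟨F, Or.inl ⟨_, B.dom l, rfl, P, hF, h2, fun y => by rw [fn_minG, h3]⟩⟩
  · exact ⟨0, good_zero m⟩

/-- The algebra of leading coefficients is finitely generated. -/
theorem BB_fg (A : Ax D) (h𝓐 : 𝓐 ≤ MTR2 D (b + 1)) {κ : Type} [Fintype κ] {G : Gens N κ} (B : GAxR D G)
    (hm : MomIn 𝓐) (ht : TopIn 𝓐 G) :
    (BB A 𝓐).FG := by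
  classical
  set T : Set (MvPolynomial ι (GamT D (b + 1))) :=
    (Set.range fun p : Fin (b + 1) × Fin N × Fin N => MvPolynomial.C (momG D p.1 p.2.1 p.2.2)) ∪
    (Set.range fun p : (l : κ) × (Fin (b + 1) → Fin (G.m l) → Fin N) =>
      MvPolynomial.monomial (ex D (G.lam D p.1)) (minG D G p.1 p.2)) with hT
  have hTfin : T.Finite := (Set.finite_range _).union (Set.finite_range _)
  have hfin : Algebra.FiniteType ℂ (MvPolynomial ι (GamT D (b + 1))) := by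
    have h1 : Algebra.FiniteType ℂ (GamT D (b + 1)) :=
      Algebra.FiniteType.of_surjective (toGam D (b + 1)) (toGam_surj D (b + 1))
    exact h1.trans inferInstance
  refine fg_of_integral hfin (Algebra.adjoin ℂ T) (BB A 𝓐) ?_ ?_ ?_
  · exact Subalgebra.fg_def.2 ⟨T, hTfin, rfl⟩
  · refine Algebra.adjoin_le ?_
    rintro p (⟨q, rfl⟩ | ⟨q, rfl⟩)
    · exact C_momG_mem A hm _ _ _
    · exact monomial_minG_mem A B ht _ _
  · intro p hp
    rw [← MvPolynomial.support_sum_monomial_coeff p]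
    refine IsIntegral.sum _ fun m _ => ?_
    obtain ⟨f, ⟨μ, hμ, rfl, P, hrep, hlead, hc⟩ | ⟨-, h0⟩⟩ := hp m
    · refine integral_of_PB A B (Nat.succ_pos b) (Algebra.adjoin ℂ T) ?_ ?_ μ hμ _ ?_
      · intro a i j
        exact Algebra.subset_adjoin (Or.inl ⟨(a, i, j), rfl⟩)
      · intro l I
        exact Algebra.subset_adjoin (Or.inr ⟨⟨l, I⟩, rfl⟩)
      · have h1 : GamT.fn (MvPolynomial.coeff (ex D μ) p) =
            fun y => Eu D μ y.2.1 * cf D P μ y := funext hc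
        rw [h1]
        exact pole_bound A (invR_of_rep A (h𝓐 f.2) hrep) μ hlead
    · rw [h0, MvPolynomial.monomial_zero]
      exact isIntegral_zero

/-- **Finite generation.** -/
theorem mt_fg (A : Ax D) {κ : Type} [Fintype κ] {G : Gens N κ} (B : GAxR D G)
    (h𝓐 : 𝓐 ≤ MTR2 D (b + 1)) (hm : MomIn 𝓐) (ht : TopIn 𝓐 G) :
    Algebra.FiniteType ℂ ↥𝓐 := finiteType_of_BB A h𝓐 B (BB_fg A h𝓐 B hm ht)

end

end Pool.Agent.MTXR
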