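import Pool.Agent.MTXR.B

/-! # MTXR : the pole bound -/

namespace Pool.Agent.MTXR

open Pool.Agent.MTD hiding Ax GAx FF Fw gC
open Pool.Agent.MTXD

open Matrix Filter Topology
open Pool.Agent.MP_c45d35_ag (chi UpUni LowUni chi_add chi_mul chi_zero chi_one chi_inv chi_map
  chi_neg chi_pow fg_of_integral isIntegral_of_valuations reg_lemma)
open Pool.Agent.MP_c45d35_ag.BlockL (adjoin_sep hom_aeval aeval_eval aeval_mem UpUni_reflect
  UpUni_map)

section
variable {n N : ℕ} {ι : Type} [Fintype ι] {D : Dat n N ι} {b : ℕ}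

/-- the numerators vanish along the walls -/
theorem wall_vanish (A : Ax D) {P : MvPolynomial (Idx N (b + 1)) ℂ} (hP : InvR D (b + 1) P)
    (lam : Fin n → ℤ) (hlead : IsLead D P lam) (β : ι)
    (L : List ι) (P' : MvPolynomial (Par N ι (b + 1) ⊕ Fin n) ℂ)
    (hP' : ∀ w ∈ {w : Par N ι (b + 1) → ℂ | ∀ a, D.IsG (Kof w a)},
      ∀ x ∈ {x : Fin n → ℂ | D.Reg x},
      ((β :: L).map fun β => MvPolynomial.eval x (ell D β)).prod * Fw A P lam w x =
        MvPolynomial.eval (Sum.elim w x) P')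
    (w : Par N ι (b + 1) → ℂ) (hw : ∀ a, D.IsG (Kof w a)) (x : Fin n → ℂ)
    (hx : MvPolynomial.eval x (ell D β) = 0) : MvPolynomial.eval (Sum.elim w x) P' = 0 := by
  classical
  rw [eval_ell] at hx
  set M : Finset (Fin n → ℤ) := (supp D P).image (fun κ => lam - κ) with hM
  obtain ⟨y0, hy0⟩ := exists_genM A β M
  -- a vector `x1` in the wall with `x1` and `x + x1` generic
  obtain ⟨x1, hx1, hx1'⟩ : ∃ x1, GenM D β M x1 ∧ D.GenW β (x + x1) := by
    obtain ⟨t, ht, ht0⟩ := ((eventually_genM β M x y0 hx hy0).and self_mem_nhdsWithin).exists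
    have ht0' : t ≠ 0 := ht0
    refine ⟨t • y0, ⟨⟨by rw [ev_smul, hy0.1.1, mul_zero], fun γ hγ => ?_⟩, fun ν hν h => ?_⟩, ht.1⟩
    · rw [ev_smul]; exact mul_ne_zero ht0' (hy0.1.2 γ hγ)
    · rw [ev_smul]; exact mul_ne_zero ht0' (hy0.2 ν hν h)
  obtain ⟨v, hv⟩ := exists_reg A
  set wt' : ℂ → Par N ι (b + 1) → ℂ :=
    fun t => parOf (Kof w) (fun a => Zof w a + t • (D.ze - Zof w a)) with hwt
  have hw0 : wt' 0 = w := by
    rw [hwt]
    simp only [zero_smul, add_zero]
    exact parOf_of w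
  have hwcont : Continuous wt' := by
    refine continuous_pi fun i => ?_
    rcases i with ⟨a, i, j⟩ | ⟨a, β'⟩
    · exact continuous_const
    · show Continuous fun t : ℂ => (Zof w a + t • (D.ze - Zof w a)) β'
      simp only [Pi.add_apply, Pi.smul_apply, smul_eq_mul]
      fun_prop
  have hev : ∀ᶠ t in 𝓝[≠] (0 : ℂ), ∀ a : Fin (b + 1),
      GoodAt D (Zof (wt' t) a) (x + t • x1) := by
    rw [eventually_all]
    intro a
    filter_upwards [line_good A hx hx1.1 hx1' (Zof w a)] with t ht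
    exact ht.2
  have hz : ∀ᶠ t in 𝓝[≠] (0 : ℂ),
      MvPolynomial.eval (Sum.elim (wt' t) (x + t • x1)) P' = 0 := by
    filter_upwards [hev, eventually_genM β M x x1 hx hx1] with t hGt hg
    have hwG : ∀ a, D.IsG (Kof (wt' t) a) := hw
    have h1 := wall_limit A hP lam hlead β (x0 := x + t • x1) (by rintro M' rfl; exact hg) hv
      (fun a => ⟨Kof (wt' t) a, hwG a⟩) (Zof (wt' t)) hGt L
      (fun s => MvPolynomial.eval (Sum.elim (wt' t) (x + t • x1 + s • v)) P') (by
        refine (MvPolynomial.continuous_eval P').continuousAt.comp (Continuous.continuousAt ?_)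
        refine continuous_pi fun i => ?_
        rcases i with i | i
        · exact continuous_const
        · simp only [Sum.elim_inr]
          exact (continuous_apply i).comp (continuous_curve (x + t • x1) v)) (by
        intro s hs
        have h2 := hP' (wt' t) hwG (x + t • x1 + s • v) hs
        simp only [eval_ell] at h2
        rw [← h2]
        congr 1
        unfold Fw
        rw [dif_pos ⟨hwG, hs⟩])
    simpa using h1
  have hlim : Tendsto (fun t : ℂ => MvPolynomial.eval (Sum.elim (wt' t) (x + t • x1)) P')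
      (𝓝[≠] (0 : ℂ)) (𝓝 (MvPolynomial.eval (Sum.elim w x) P')) := by
    have hc : Continuous fun t : ℂ =>
        MvPolynomial.eval (Sum.elim (wt' t) (x + t • x1)) P' := by
      refine (MvPolynomial.continuous_eval P').comp (continuous_pi fun i => ?_)
      rcases i with i | i
      · exact (continuous_apply i).comp hwcont
      · exact (continuous_apply i).comp (continuous_curve x x1)
    have h0 := hc.tendsto 0
    simp only [hw0, zero_smul, add_zero] at h0
    exact h0.mono_left nhdsWithin_le_nhds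
  have hlim0 : Tendsto (fun t : ℂ => MvPolynomial.eval (Sum.elim (wt' t) (x + t • x1)) P')
      (𝓝[≠] (0 : ℂ)) (𝓝 0) :=
    (tendsto_const_nhds (x := (0 : ℂ)) (f := 𝓝[≠] (0 : ℂ))).congr'
      (hz.mono fun t ht => ht.symm)
  exact tendsto_nhds_unique hlim hlim0

/-- **The pole bound.** -/
theorem pole_bound (A : Ax D) {P : MvPolynomial (Idx N (b + 1)) ℂ} (hP : InvR D (b + 1) P)
    (lam : Fin n → ℤ) (hlead : IsLead D P lam) :
    PB D (b + 1) lam (fun y => Eu D lam y.2.1 * cf D P lam y) := by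
  obtain ⟨L, P0, hP0⟩ := Rt_clear (X := fun y : YY D (b + 1) => y.2.2)
    (fun y : YY D (b + 1) => parOf (fun a => (y.1 a).1) y.2.1) (fun f hf => hf) _ (FF_mem A P lam)
  obtain ⟨Q, hQ⟩ := reg_lemma {w : Par N ι (b + 1) → ℂ | ∀ a, D.IsG (Kof w a)}
    {x : Fin n → ℂ | D.Reg x} (ell D) (phiW D) phiW_dvd (phiW_ell A.cr_rt)
    (fun β x hx => by rw [eval_ell]; exact hx β) (Fw A P lam) L P0
    (by
      intro w hw x hx
      have h1 := hP0 (fun a => ⟨Kof w a, hw a⟩, Zof w, ⟨x, hx⟩)
      have h2 : Fw A P lam w x = FF A P lam (fun a => ⟨Kof w a, hw a⟩) (Zof w) ⟨x, hx⟩ := by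
        unfold Fw
        rw [dif_pos ⟨hw, hx⟩]
      rw [h2, h1]
      show MvPolynomial.eval (Sum.elim (parOf (Kof w) (Zof w)) x) P0 = _
      rw [parOf_of])
    (fun β L' P' h w hw x hx => wall_vanish A hP lam hlead β L' P' h w hw x hx)
  refine ⟨Q, ?_⟩
  intro k g Z u t x hu
  have huC : ∀ a, u a = uC D (Z a) x.1 := fun a =>
    A.u_unique x.1 (A.isUnit_reg x.2) _ (u a) (uC D (Z a) x.1) (hu a).1
      (uC_upUni _ _) (hu a).2.1 (uC_isG A _ _) (hu a).2.2.1 (uC_conj A _ x.2)
  have hg : ∀ a, (g a).1 = (gC A k Z x.1 a).1 * D.Tt (t a) := by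
    intro a
    rw [(hu a).2.2.2, huC a]
    rfl
  show Eu D lam x.1 * cf D P lam (g, x) = _
  rw [cf_torus A hP lam (gC A k Z x.1) g x t hg]
  have h1 := hQ (parOf (fun a => (k a).1) Z) (fun a => (k a).2) x.1 x.2
  have h2 : Fw A P lam (parOf (fun a => (k a).1) Z) x.1 = FF A P lam k Z x := by
    unfold Fw
    rw [dif_pos ⟨fun a => (k a).2, x.2⟩]
    rfl
  rw [h2] at h1
  unfold FF at h1
  rw [← h1]
  ring

end

end Pool.Agent.MTXR
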